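import Mathlib
import Pool.Agent.Helper203.Comp
import Pool.Agent.Helper202.Geom

set_option autoImplicit false

open Complex Metric Set Filter MeasureTheory
open scoped Real Topology ComplexConjugate NNReal ENNReal InnerProductSpace

namespace Pool.Agent.R989.HT

open Pool.Agent.Helper203.Hardy
open ContinuousLinearMap (adjoint)

/-- `T` is the Toeplitz operator `γ S^* + T_φ` on `H²`, where `S^*` is the backward shift and `T_φ` is
multiplication by `φ`. -/
def IsToeplitz (γ : ℂ) (φ : ℂ → ℂ) (T : H2 →L[ℂ] H2) : Prop :=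
  ∀ f : H2, ∀ z ∈ ball (0 : ℂ) 1, ev (T f) z = φ z * ev f z + γ * ∑' n, f (n + 1) * z ^ n

/-- some orbit of `T` is dense -/
def Hypercyclic (T : H2 →L[ℂ] H2) : Prop :=
  ∃ x : H2, Dense (Set.range fun n : ℕ => (T ^ n) x)

/-- the finite values of `γ / z + φ z` on the unit disc -/
def values (γ : ℂ) (φ : ℂ → ℂ) : Set ℂ := (fun z : ℂ => γ / z + φ z) '' (ball (0 : ℂ) 1 \ {0})

/-! ### multiplication operators (copied from the starting file `H743R2/NW4.lean`) -/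

theorem exists_mul {φ : ℂ → ℂ} (hφ : DifferentiableOn ℂ φ (ball 0 1))
    (hm : ∀ z ∈ ball (0 : ℂ) 1, ‖φ z‖ ≤ 1) :
    ∃ M : H2 →L[ℂ] H2, ∀ f : H2, ∀ z ∈ ball (0 : ℂ) 1, ev (M f) z = φ z * ev f z := by
  have hex : ∀ f : H2, ∃ F : H2, (∀ z ∈ ball (0 : ℂ) 1, ev F z = φ z * ev f z) ∧
      ‖F‖ ^ 2 ≤ ‖f‖ ^ 2 := by
    intro f
    apply exists_ev (h := fun z => φ z * ev f z) (hφ.mul (ev_diff f)) (by positivity)
    intro r h0 h1
    refine le_trans ?_ (ev_circle_le f h0 h1)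
    have hcb : ∀ θ, circleMap 0 r θ ∈ ball (0 : ℂ) 1 := by
      intro θ
      rw [mem_ball_zero_iff, norm_circleMap_zero, abs_of_nonneg h0]; exact h1
    have c1 : Continuous fun θ => ev f (circleMap 0 r θ) :=
      (ev_diff f).continuousOn.comp_continuous (continuous_circleMap 0 _) hcb
    have c2 : Continuous fun θ => φ (circleMap 0 r θ) :=
      hφ.continuousOn.comp_continuous (continuous_circleMap 0 _) hcb
    apply integral_mono (cont_integrable ((c2.mul c1).norm.pow 2))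
      (cont_integrable (c1.norm.pow 2))
    intro θ
    show ‖φ (circleMap 0 r θ) * ev f (circleMap 0 r θ)‖ ^ 2 ≤ ‖ev f (circleMap 0 r θ)‖ ^ 2
    rw [norm_mul]
    have h2 := hm _ (hcb θ)
    have h3 : ‖φ (circleMap 0 r θ)‖ * ‖ev f (circleMap 0 r θ)‖ ≤ ‖ev f (circleMap 0 r θ)‖ :=
      mul_le_of_le_one_left (norm_nonneg _) h2
    exact pow_le_pow_left₀ (by positivity) h3 2
  choose F hF1 hF2 using hex
  refine ⟨LinearMap.mkContinuous
    { toFun := F
      map_add' := fun f g => ?_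
      map_smul' := fun a f => ?_ } 1 (fun f => ?_), fun f z hz => hF1 f z hz⟩
  · apply ev_injective
    intro z hz
    have hz' := mem_ball_zero_iff.1 hz
    rw [ev_add _ _ hz', hF1 _ z hz, hF1 _ z hz, hF1 _ z hz, ev_add _ _ hz']
    ring
  · apply ev_injective
    intro z hz
    rw [RingHom.id_apply, ev_smul, hF1 _ z hz, hF1 _ z hz, ev_smul]
    ring
  · show ‖F f‖ ≤ 1 * ‖f‖
    rw [one_mul]
    exact (pow_le_pow_iff_left₀ (norm_nonneg _) (norm_nonneg _) two_ne_zero).1 (hF2 f)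

theorem exists_mul' {φ : ℂ → ℂ} (hφ : DifferentiableOn ℂ φ (ball 0 1)) {C : ℝ}
    (hm : ∀ z ∈ ball (0 : ℂ) 1, ‖φ z‖ ≤ C) :
    ∃ M : H2 →L[ℂ] H2, ∀ f : H2, ∀ z ∈ ball (0 : ℂ) 1, ev (M f) z = φ z * ev f z := by
  have hC0 : 0 ≤ C := (norm_nonneg _).trans (hm 0 (by simp))
  have hC1 : (0 : ℝ) < C + 1 := by linarith
  obtain ⟨M, hM⟩ := exists_mul (φ := fun z => (((C + 1 : ℝ) : ℂ))⁻¹ * φ z)
    (hφ.const_mul _) (by
      intro z hz
      rw [norm_mul, norm_inv, Complex.norm_real, Real.norm_eq_abs, abs_of_pos hC1,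
        inv_mul_le_iff₀ hC1]
      have := hm z hz
      linarith)
  refine ⟨((C + 1 : ℝ) : ℂ) • M, fun f z hz => ?_⟩
  have hne : ((C + 1 : ℝ) : ℂ) ≠ 0 := by exact_mod_cast hC1.ne'
  rw [ContinuousLinearMap.smul_apply, ev_smul, hM f z hz]
  field_simp

theorem ev_zero (f : H2) : ev f 0 = f 0 := by
  rw [ev, tsum_eq_single 0]
  · simp
  · intro n hn
    simp [hn]

/-- the constant function `1` -/
noncomputable def e0 : H2 := lp.single 2 0 (1 : ℂ)

theorem ev_e0 (z : ℂ) : ev e0 z = 1 := by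
  rw [ev, tsum_eq_single 0]
  · simp [e0]
  · intro n hn
    rw [e0, lp.single_apply_ne _ _ _ hn, zero_mul]

theorem ev_adj (f : H2) (z : ℂ) : ev (adjoint Mz f) z = ∑' n, f (n + 1) * z ^ n := by
  rw [ev]
  congr 1
  funext n
  rw [adj_Mz]

theorem ev_adjMz (f : H2) {z : ℂ} (hz : ‖z‖ < 1) : ev f z = f 0 + z * ev (adjoint Mz f) z := by
  rw [ev, (ev_summable f hz).tsum_eq_zero_add, ev, ← tsum_mul_left]
  simp only [pow_zero, mul_one]
  congr 2
  funext n
  rw [adj_Mz]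
  ring

theorem exists_evL {a : ℂ} (ha : ‖a‖ < 1) : ∃ L : H2 →L[ℂ] ℂ, ∀ f : H2, L f = ev f a := by
  have hs : Summable (fun n : ℕ => ‖(conj a) ^ n‖ ^ 2) := by
    have e : ∀ n : ℕ, ‖(conj a) ^ n‖ ^ 2 = (‖a‖ ^ 2) ^ n := by
      intro n
      rw [norm_pow, RCLike.norm_conj, ← pow_mul, ← pow_mul, mul_comm]
    simp only [e]
    exact summable_geometric_of_lt_one (by positivity) (by nlinarith [norm_nonneg a])
  have hm : Memℓp (fun n : ℕ => (conj a) ^ n) 2 := by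
    apply memℓp_gen
    simpa using hs
  refine ⟨innerSL ℂ (⟨fun n => (conj a) ^ n, hm⟩ : H2), fun f => ?_⟩
  rw [innerSL_apply_apply, lp.inner_eq_tsum, ev]
  congr 1
  funext n
  show ⟪(conj a) ^ n, f n⟫_ℂ = _
  simp [mul_comm]

/-! ### eigenfunctionals exclude hypercyclicity -/

theorem not_hyp {T : H2 →L[ℂ] H2} (L : H2 →L[ℂ] ℂ) {v : H2} (hv : L v ≠ 0) {μ : ℂ}
    (h : ∀ f, L (T f) = μ * L f) : ¬ Hypercyclic T := by
  rintro ⟨x, hx⟩
  have hsurj : Function.Surjective L := by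
    intro c
    refine ⟨(c / L v) • v, ?_⟩
    rw [map_smul, smul_eq_mul]
    field_simp
  have hd : Dense (L '' Set.range fun n : ℕ => (T ^ n) x) :=
    hsurj.denseRange.dense_image L.continuous hx
  have hpow : ∀ n : ℕ, L ((T ^ n) x) = μ ^ n * L x := by
    intro n
    induction n with
    | zero => simp
    | succ n ih =>
      rw [pow_succ', ContinuousLinearMap.mul_apply, h, ih, pow_succ']
      ring
  have key : ∀ U : Set ℂ, IsOpen U → U.Nonempty → ∃ n : ℕ, μ ^ n * L x ∈ U := by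
    intro U hU hne
    obtain ⟨y, hy, hyU⟩ := hd.exists_mem_open hU hne
    obtain ⟨_, ⟨n, rfl⟩, rfl⟩ := hy
    exact ⟨n, by rw [← hpow]; exact hyU⟩
  rcases le_or_gt ‖μ‖ 1 with h1 | h1
  · obtain ⟨n, hn⟩ := key {w | ‖L x‖ < ‖w‖} (isOpen_lt continuous_const continuous_norm)
      ⟨((‖L x‖ + 1 : ℝ) : ℂ), by
        show ‖L x‖ < ‖((‖L x‖ + 1 : ℝ) : ℂ)‖
        rw [Complex.norm_real, Real.norm_eq_abs, abs_of_nonneg (by positivity)]
        linarith⟩
    have hn' : ‖L x‖ < ‖μ ^ n * L x‖ := hn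
    rw [norm_mul, norm_pow] at hn'
    have := mul_le_of_le_one_left (norm_nonneg (L x)) (pow_le_one₀ (norm_nonneg μ) h1 (n := n))
    linarith
  · rcases eq_or_ne (L x) 0 with h2 | h2
    · obtain ⟨n, hn⟩ := key {w | 0 < ‖w‖} (isOpen_lt continuous_const continuous_norm)
        ⟨1, by simp⟩
      have hn' : 0 < ‖μ ^ n * L x‖ := hn
      rw [h2, mul_zero, norm_zero] at hn'
      exact lt_irrefl _ hn'
    · have h3 : 0 < ‖L x‖ := norm_pos_iff.2 h2
      obtain ⟨n, hn⟩ := key {w | ‖w‖ < ‖L x‖} (isOpen_lt continuous_norm continuous_const)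
        ⟨0, by simpa using h2⟩
      have hn' : ‖μ ^ n * L x‖ < ‖L x‖ := hn
      rw [norm_mul, norm_pow] at hn'
      have := one_le_pow₀ h1.le (n := n)
      nlinarith

variable {γ : ℂ} {φ : ℂ → ℂ} {T : H2 →L[ℂ] H2}

theorem zT (hT : IsToeplitz γ φ T) (f : H2) {z : ℂ} (hz : z ∈ ball (0 : ℂ) 1) :
    z * ev (T f) z = (γ + z * φ z) * ev f z - γ * f 0 := by
  have hz' := mem_ball_zero_iff.1 hz
  rw [hT f z hz, ← ev_adj]
  have := ev_adjMz f hz'
  linear_combination (-γ) * this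

theorem gamma_ne (hT : IsToeplitz γ φ T) (hh : Hypercyclic T) : γ ≠ 0 := by
  rintro rfl
  have ha : ‖(1 / 2 : ℂ)‖ < 1 := by norm_num
  obtain ⟨L, hL⟩ := exists_evL ha
  refine not_hyp L (v := e0) (μ := φ (1 / 2)) ?_ ?_ hh
  · rw [hL, ev_e0]; exact one_ne_zero
  · intro f
    rw [hL, hL, hT f _ (mem_ball_zero_iff.2 ha)]
    ring

theorem inj (hT : IsToeplitz γ φ T) (hh : Hypercyclic T) :
    InjOn (fun z : ℂ => γ / z + φ z) (ball (0 : ℂ) 1 \ {0}) := by
  rintro a ⟨ha, ha0⟩ b ⟨hb, hb0⟩ hab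
  by_contra hne
  have ha0' : a ≠ 0 := ha0
  have hb0' : b ≠ 0 := hb0
  obtain ⟨La, hLa⟩ := exists_evL (mem_ball_zero_iff.1 ha)
  obtain ⟨Lb, hLb⟩ := exists_evL (mem_ball_zero_iff.1 hb)
  set μ := γ / a + φ a with hμ
  have hab' : μ = γ / b + φ b := hab
  refine not_hyp (a • La - b • Lb) (v := e0) (μ := μ) ?_ ?_ hh
  · simp only [ContinuousLinearMap.sub_apply, ContinuousLinearMap.smul_apply, smul_eq_mul, hLa,
      hLb, ev_e0, mul_one]
    exact sub_ne_zero.2 hne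
  · intro f
    simp only [ContinuousLinearMap.sub_apply, ContinuousLinearMap.smul_apply, smul_eq_mul, hLa,
      hLb]
    rw [zT hT f ha, zT hT f hb]
    have e1 : γ + a * φ a = a * μ := by rw [hμ]; field_simp
    have e2 : γ + b * φ b = b * μ := by rw [hab']; field_simp
    rw [e1, e2]; ring

end Pool.Agent.R989.HT
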