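import Mathlib
import Pool.Agent.R989.HT.A

set_option autoImplicit false

open Complex Metric Set Filter MeasureTheory
open scoped Real Topology ComplexConjugate NNReal ENNReal InnerProductSpace

namespace Pool.Agent.R989.HT

open Pool.Agent.Helper203.Hardy
open ContinuousLinearMap (adjoint)

variable {γ : ℂ} {φ : ℂ → ℂ} {T : H2 →L[ℂ] H2}

theorem adj_mul : adjoint Mz * Mz = (1 : H2 →L[ℂ] H2) := by
  ext f n
  show (adjoint Mz (Mz f)) n = f n
  rw [adj_Mz, Mz_apply]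
  rfl

theorem adj_norm : ‖adjoint Mz‖ ≤ 1 := by
  rw [LinearIsometryEquiv.norm_map]
  exact ContinuousLinearMap.opNorm_le_bound _ zero_le_one (fun f => by rw [Mz_norm, one_mul])

theorem adj_e0 : adjoint Mz e0 = 0 := by
  ext n
  rw [adj_Mz, e0, lp.single_apply_ne _ _ _ (Nat.succ_ne_zero n)]
  rfl

/-- the operator equality `T = γ S^* + M_φ` -/
theorem T_eq (hT : IsToeplitz γ φ T) {M : H2 →L[ℂ] H2}
    (hM : ∀ f : H2, ∀ z ∈ ball (0 : ℂ) 1, ev (M f) z = φ z * ev f z) :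
    T = γ • adjoint Mz + M := by
  ext1 f
  apply ev_injective
  intro z hz
  have hz' := mem_ball_zero_iff.1 hz
  rw [hT f z hz, ContinuousLinearMap.add_apply, ContinuousLinearMap.smul_apply, ev_add _ _ hz',
    ev_smul, hM f z hz, ev_adj]
  ring

theorem exists_T (γ : ℂ) (hφ : DifferentiableOn ℂ φ (ball 0 1)) {C : ℝ}
    (hm : ∀ z ∈ ball (0 : ℂ) 1, ‖φ z‖ ≤ C) : ∃ T, IsToeplitz γ φ T := by
  obtain ⟨M, hM⟩ := exists_mul' hφ hm
  refine ⟨γ • adjoint Mz + M, fun f z hz => ?_⟩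
  have hz' := mem_ball_zero_iff.1 hz
  rw [ContinuousLinearMap.add_apply, ContinuousLinearMap.smul_apply, ev_add _ _ hz',
    ev_smul, hM f z hz, ev_adj]
  ring

theorem T_sub (hT : IsToeplitz γ φ T) {M : H2 →L[ℂ] H2}
    (hM : ∀ f : H2, ∀ z ∈ ball (0 : ℂ) 1, ev (M f) z = φ z * ev f z) (μ : ℂ) :
    T - μ • (1 : H2 →L[ℂ] H2) =
      adjoint Mz * (γ • (1 : H2 →L[ℂ] H2) + Mz * (M - μ • (1 : H2 →L[ℂ] H2))) := by
  rw [mul_add, ← mul_assoc, adj_mul, one_mul, T_eq hT hM, mul_smul_comm, mul_one]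
  abel

theorem ev_R {M : H2 →L[ℂ] H2}
    (hM : ∀ f : H2, ∀ z ∈ ball (0 : ℂ) 1, ev (M f) z = φ z * ev f z) (μ : ℂ) (f : H2) {z : ℂ}
    (hz : z ∈ ball (0 : ℂ) 1) :
    ev ((γ • (1 : H2 →L[ℂ] H2) + Mz * (M - μ • (1 : H2 →L[ℂ] H2))) f) z =
      (γ + z * (φ z - μ)) * ev f z := by
  have hz' := mem_ball_zero_iff.1 hz
  have e : (γ • (1 : H2 →L[ℂ] H2) + Mz * (M - μ • (1 : H2 →L[ℂ] H2))) f =
      γ • f + Mz (M f - μ • f) := rfl
  rw [e, ev_add _ _ hz', ev_smul, ev_Mz _ hz', ev_sub _ _ hz', ev_smul, hM f z hz]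
  ring

/-- If `γ + z (φ z - μ)` has no zero in the disc then `T - μ` is not invertible. -/
theorem not_unit (hT : IsToeplitz γ φ T) (hφ : DifferentiableOn ℂ φ (ball 0 1)) {C : ℝ}
    (hm : ∀ z ∈ ball (0 : ℂ) 1, ‖φ z‖ ≤ C) (μ : ℂ)
    (hz0 : ∀ z ∈ ball (0 : ℂ) 1, γ + z * (φ z - μ) ≠ 0) : ¬ IsUnit (T - μ • (1 : H2 →L[ℂ] H2)) := by
  intro hu
  obtain ⟨M, hM⟩ := exists_mul' hφ hm
  set R : H2 →L[ℂ] H2 := γ • (1 : H2 →L[ℂ] H2) + Mz * (M - μ • (1 : H2 →L[ℂ] H2)) with hR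
  rw [T_sub hT hM μ, ← hR] at hu
  obtain ⟨u, hu⟩ := hu
  set B : H2 →L[ℂ] H2 := ((u⁻¹ : (H2 →L[ℂ] H2)ˣ) : H2 →L[ℂ] H2) with hB
  have h1 : B * (adjoint Mz * R) = 1 := by rw [← hu, hB]; exact u.inv_mul
  set ψ : H2 →L[ℂ] H2 := 1 - R * B * adjoint Mz with hψ
  have h2 : (adjoint Mz * R) * B = 1 := by rw [← hu, hB]; exact u.mul_inv
  have k1 : adjoint Mz * ψ = 0 := by
    rw [hψ, mul_sub, mul_one, ← mul_assoc, ← mul_assoc, h2, one_mul, sub_self]
  have k2 : ψ * R = 0 := by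
    rw [hψ, sub_mul, one_mul, mul_assoc, mul_assoc, h1, mul_one, sub_self]
  have k3 : ψ e0 = e0 := by
    rw [hψ]
    show e0 - R (B (adjoint Mz e0)) = e0
    rw [adj_e0, map_zero, map_zero, sub_zero]
  have hcomm : Mz * R = R * Mz := by
    ext1 f
    apply ev_injective
    intro z hz
    have hz' := mem_ball_zero_iff.1 hz
    show ev (Mz (R f)) z = ev (R (Mz f)) z
    rw [ev_Mz _ hz', hR, ev_R hM μ _ hz, ev_R hM μ _ hz, ev_Mz _ hz']
    ring
  obtain ⟨L0, hL0⟩ := exists_evL (a := 0) (by simp)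
  set ℓ : H2 →L[ℂ] ℂ := L0.comp ψ with hℓ
  have hℓ' : ∀ f, ℓ f = (ψ f) 0 := by
    intro f
    rw [hℓ, ContinuousLinearMap.comp_apply, hL0, ev_zero]
  have hψe : ∀ f, ψ f = ℓ f • e0 := by
    intro f
    ext n
    rw [hℓ']
    show (ψ f) n = (ψ f) 0 * e0 n
    rcases n with _ | n
    · rw [e0, lp.single_apply_self, mul_one]
    · rw [e0, lp.single_apply_ne _ _ _ (Nat.succ_ne_zero n), mul_zero, ← adj_Mz]
      have : adjoint Mz (ψ f) = (adjoint Mz * ψ) f := rfl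
      rw [this, k1]
      rfl
  set a : ℂ := ℓ (Mz e0) with ha
  have hstep : ∀ f, ℓ (Mz f) = a * ℓ f := by
    intro f
    have e1 : f = ℓ f • e0 + R (B (adjoint Mz f)) := by
      rw [← hψe, hψ]
      show f = (f - R (B (adjoint Mz f))) + R (B (adjoint Mz f))
      abel
    have e2 : Mz f = ℓ f • Mz e0 + R (Mz (B (adjoint Mz f))) := by
      conv_lhs => rw [e1]
      rw [map_add, map_smul]
      congr 1
      exact congrArg (fun X : H2 →L[ℂ] H2 => X (B (adjoint Mz f))) hcomm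
    have e3 : ∀ g, ℓ (R g) = 0 := by
      intro g
      have : ψ (R g) = (ψ * R) g := rfl
      rw [hℓ', this, k2]
      rfl
    rw [e2, map_add, map_smul, e3, add_zero, smul_eq_mul, mul_comm]
  have hn : ∀ n : ℕ, ℓ (lp.single 2 n (1 : ℂ)) = a ^ n := by
    intro n
    induction n with
    | zero =>
      have : (lp.single 2 0 (1 : ℂ) : H2) = e0 := rfl
      rw [this, hℓ', k3, pow_zero, e0, lp.single_apply_self]
    | succ n ih => rw [← Mz_single, hstep, ih, pow_succ']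
  -- Riesz representation
  set k : H2 := (InnerProductSpace.toDual ℂ H2).symm ℓ with hk
  have hk1 : ∀ f, ⟪k, f⟫_ℂ = ℓ f := fun f => InnerProductSpace.toDual_symm_apply
  have hk2 : ∀ n : ℕ, conj (k n) = a ^ n := by
    intro n
    rw [← hn, ← hk1, lp.inner_single_right]
    simp
  have ha1 : ‖a‖ < 1 := by
    by_contra hge
    push Not at hge
    have hs : Tendsto (fun n => ‖k n‖ ^ 2) atTop (𝓝 0) := (sq_summable k).tendsto_atTop_zero
    have h3 : ∀ n, 1 ≤ ‖k n‖ ^ 2 := by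
      intro n
      rw [← RCLike.norm_conj (k n), hk2, norm_pow]
      exact one_le_pow₀ (one_le_pow₀ hge)
    have := ge_of_tendsto' hs h3
    linarith
  have hev : ∀ f, ℓ f = ev f a := by
    intro f
    rw [← hk1, lp.inner_eq_tsum, ev]
    congr 1
    funext n
    rw [← hk2]
    simp [mul_comm]
  have h5 : ℓ (R e0) = 0 := by
    have : ψ (R e0) = (ψ * R) e0 := rfl
    rw [hℓ', this, k2]
    rfl
  rw [hev, hR, ev_R hM μ _ (mem_ball_zero_iff.2 ha1), ev_e0, mul_one] at h5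
  exact hz0 a (mem_ball_zero_iff.2 ha1) h5

end Pool.Agent.R989.HT
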