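import Mathlib
import Pool.Agent.R989.HT.B

set_option autoImplicit false

open Complex Metric Set Filter MeasureTheory
open scoped Real Topology ComplexConjugate NNReal ENNReal InnerProductSpace

namespace Pool.Agent.R989.HT

open Pool.Agent.Helper203.Hardy
open ContinuousLinearMap (adjoint)

variable {γ : ℂ} {φ : ℂ → ℂ} {T : H2 →L[ℂ] H2}

theorem open_punct : IsOpen (ball (0 : ℂ) 1 \ {0}) := isOpen_ball.sdiff isClosed_singleton

theorem diff_Phi (γ : ℂ) (hφ : DifferentiableOn ℂ φ (ball 0 1)) :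
    DifferentiableOn ℂ (fun z : ℂ => γ / z + φ z) (ball (0 : ℂ) 1 \ {0}) := by
  apply DifferentiableOn.add
  · exact (differentiableOn_const γ).div differentiableOn_id (fun z hz => hz.2)
  · exact hφ.mono sdiff_subset

theorem strict (γ : ℂ) (hφ : DifferentiableOn ℂ φ (ball 0 1)) {a : ℂ}
    (ha : a ∈ ball (0 : ℂ) 1 \ {0}) :
    HasStrictDerivAt (fun z : ℂ => γ / z + φ z) (deriv (fun z : ℂ => γ / z + φ z) a) a :=
  ((diff_Phi γ hφ).analyticAt (open_punct.mem_nhds ha)).hasStrictDerivAt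

/-- local surjectivity: small discs around `a` are mapped onto neighbourhoods of `Φ(a)` -/
theorem image_nhds (hφ : DifferentiableOn ℂ φ (ball 0 1))
    (hi : InjOn (fun z : ℂ => γ / z + φ z) (ball (0 : ℂ) 1 \ {0})) {a : ℂ}
    (ha : a ∈ ball (0 : ℂ) 1 \ {0}) {W : Set ℂ} (hW : W ∈ 𝓝 a) :
    (fun z : ℂ => γ / z + φ z) '' W ∈ 𝓝 (γ / a + φ a) := by
  have h0 := Pool.Agent.Helper202.Geom.deriv_ne_zero_of_injOn open_punct (diff_Phi γ hφ) hi ha
  have h1 := (strict γ hφ ha).map_nhds_eq h0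
  rw [← h1]
  exact image_mem_map hW

theorem bound_mul {a : ℂ} (hφ : DifferentiableOn ℂ φ (ball 0 1)) {C : ℝ}
    (hm : ∀ z ∈ ball (0 : ℂ) 1, ‖φ z‖ ≤ C) (hγ : γ ≠ 0)
    (hi : InjOn (fun z : ℂ => γ / z + φ z) (ball (0 : ℂ) 1 \ {0}))
    (ha : a ∈ ball (0 : ℂ) 1 \ {0}) :
    ∃ q : ℂ → ℂ, DifferentiableOn ℂ q (ball 0 1) ∧ (∀ z ∈ ball (0 : ℂ) 1, q z ≠ 0) ∧
      (∀ z, γ + z * (φ z - (γ / a + φ a)) = (z - a) * q z) ∧
      (∃ K : ℝ, ∀ z ∈ ball (0 : ℂ) 1, ‖q z‖ ≤ K) ∧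
      (∃ K : ℝ, ∀ z ∈ ball (0 : ℂ) 1, ‖(q z)⁻¹‖ ≤ K) := by
  obtain ⟨ha1, ha0⟩ := ha
  have ha0' : a ≠ 0 := ha0
  set μ := γ / a + φ a with hμ
  set Q : ℂ → ℂ := fun z => γ + z * (φ z - μ) with hQ
  have hQd : DifferentiableOn ℂ Q (ball 0 1) :=
    (differentiableOn_const γ).add (differentiableOn_id.mul (hφ.sub_const μ))
  have hQa : Q a = 0 := by
    simp only [hQ, hμ]
    field_simp
    ring
  have hQz : ∀ z : ℂ, z ≠ 0 → Q z = z * ((γ / z + φ z) - μ) := by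
    intro z hz
    simp only [hQ]
    field_simp
    ring
  set q : ℂ → ℂ := dslope Q a with hq
  have hqd : DifferentiableOn ℂ q (ball 0 1) :=
    (Complex.differentiableOn_dslope (isOpen_ball.mem_nhds ha1)).2 hQd
  have hfac : ∀ z, Q z = (z - a) * q z := by
    intro z
    have := sub_smul_dslope Q a z
    rw [hQa, sub_zero, smul_eq_mul] at this
    exact this.symm
  have hQne : ∀ z ∈ ball (0 : ℂ) 1, z ≠ a → Q z ≠ 0 := by
    intro z hz hza
    rcases eq_or_ne z 0 with rfl | hz0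
    · simp only [hQ, zero_mul, add_zero]; exact hγ
    · rw [hQz z hz0]
      refine mul_ne_zero hz0 (sub_ne_zero.2 ?_)
      intro h
      exact hza (hi ⟨hz, hz0⟩ ⟨ha1, ha0⟩ h)
  have hqne : ∀ z ∈ ball (0 : ℂ) 1, q z ≠ 0 := by
    intro z hz
    rcases eq_or_ne z a with rfl | hza
    · rw [hq, dslope_same]
      have hd : HasDerivAt (fun w : ℂ => w * ((γ / w + φ w) - μ))
          (1 * ((γ / z + φ z) - μ) + z * deriv (fun w : ℂ => γ / w + φ w) z) z :=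
        (hasDerivAt_id z).mul ((strict γ hφ ⟨hz, ha0⟩).hasDerivAt.sub_const μ)
      have he : Q =ᶠ[𝓝 z] fun w : ℂ => w * ((γ / w + φ w) - μ) := by
        filter_upwards [isOpen_ne.mem_nhds ha0'] with w hw
        exact hQz w hw
      rw [he.deriv_eq, hd.deriv]
      have h3 : (γ / z + φ z) - μ = 0 := sub_self _
      rw [h3, mul_zero, zero_add]
      exact mul_ne_zero ha0' (Pool.Agent.Helper202.Geom.deriv_ne_zero_of_injOn open_punct
        (diff_Phi γ hφ) hi ⟨hz, ha0⟩)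
    · intro h
      exact hQne z hz hza (by rw [hfac, h, mul_zero])
  -- a small closed disc around `a`
  obtain ⟨ρ, hρ, hρ1⟩ : ∃ ρ > 0, closedBall a ρ ⊆ ball (0 : ℂ) 1 \ {0} :=
    Metric.nhds_basis_closedBall.mem_iff.1 (open_punct.mem_nhds ⟨ha1, ha0⟩)
  have hρ2 : closedBall a ρ ⊆ ball (0 : ℂ) 1 := hρ1.trans sdiff_subset
  have hcomp : IsCompact (closedBall a ρ) := isCompact_closedBall a ρ
  obtain ⟨K1, hK1⟩ := hcomp.exists_bound_of_continuousOn (hqd.continuousOn.mono hρ2)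
  obtain ⟨K2, hK2⟩ := hcomp.exists_bound_of_continuousOn
    ((hqd.continuousOn.mono hρ2).inv₀ fun z hz => hqne z (hρ2 hz))
  -- lower bound away from `a`
  obtain ⟨δ, hδ, hδ1⟩ : ∃ δ > 0, ball μ δ ⊆ (fun z : ℂ => γ / z + φ z) '' ball a ρ :=
    Metric.mem_nhds_iff.1 (image_nhds hφ hi ⟨ha1, ha0⟩ (ball_mem_nhds a hρ))
  have hlow1 : ∀ z ∈ ball (0 : ℂ) 1, z ≠ 0 → z ∉ ball a ρ → δ ≤ ‖(γ / z + φ z) - μ‖ := by
    intro z hz hz0 hza
    by_contra hlt
    push Not at hlt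
    have h1 : γ / z + φ z ∈ ball μ δ := by rw [mem_ball, dist_eq_norm]; exact hlt
    obtain ⟨w, hw, hw1⟩ := hδ1 h1
    have h2 : w = z := hi (hρ1 (ball_subset_closedBall hw)) ⟨hz, hz0⟩ hw1
    exact hza (h2 ▸ hw)
  have hQc : ContinuousAt Q 0 :=
    (hQd.differentiableAt (isOpen_ball.mem_nhds (by simp))).continuousAt
  obtain ⟨r, hr, hr1⟩ : ∃ r > 0, ∀ z, ‖z‖ < r → ‖γ‖ / 2 ≤ ‖Q z‖ := by
    have h1 : ∀ᶠ z in 𝓝 (0 : ℂ), ‖γ‖ / 2 < ‖Q z‖ := by
      have h2 : ‖γ‖ / 2 < ‖Q 0‖ := by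
        have : Q 0 = γ := by simp [hQ]
        rw [this]
        have := norm_pos_iff.2 hγ
        linarith
      exact hQc.norm.eventually (lt_mem_nhds h2)
    obtain ⟨r, hr, hr1⟩ := Metric.eventually_nhds_iff.1 h1
    exact ⟨r, hr, fun z hz => (hr1 (by rwa [dist_zero_right])).le⟩
  set m : ℝ := min (‖γ‖ / 2) (r * δ) with hmdef
  have hm0 : 0 < m := lt_min (by have := norm_pos_iff.2 hγ; linarith) (mul_pos hr hδ)
  have hlow : ∀ z ∈ ball (0 : ℂ) 1, z ∉ ball a ρ → m ≤ ‖Q z‖ := by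
    intro z hz hza
    rcases lt_or_ge ‖z‖ r with h | h
    · exact (min_le_left _ _).trans (hr1 z h)
    · have hz0 : z ≠ 0 := by
        rintro rfl
        rw [norm_zero] at h
        linarith
      refine (min_le_right _ _).trans ?_
      rw [hQz z hz0, norm_mul]
      exact mul_le_mul h (hlow1 z hz hz0 hza) hδ.le (norm_nonneg z)
  refine ⟨q, hqd, hqne, hfac, ⟨max K1 ((‖γ‖ + (C + ‖μ‖)) / ρ), ?_⟩, ⟨max K2 (2 / m), ?_⟩⟩
  · intro z hz
    by_cases hza : z ∈ closedBall a ρ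
    · exact (hK1 z hza).trans (le_max_left _ _)
    · refine le_trans ?_ (le_max_right _ _)
      have h1 : ρ < ‖z - a‖ := by
        rw [mem_closedBall, dist_eq_norm, not_le] at hza; exact hza
      have h2 : ‖Q z‖ = ‖z - a‖ * ‖q z‖ := by rw [hfac, norm_mul]
      have h3 : ‖Q z‖ ≤ ‖γ‖ + (C + ‖μ‖) := by
        simp only [hQ]
        refine (norm_add_le _ _).trans ?_
        rw [norm_mul]
        have h4 : ‖φ z - μ‖ ≤ C + ‖μ‖ := (norm_sub_le _ _).trans (by linarith [hm z hz])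
        have h5 : ‖z‖ ≤ 1 := (mem_ball_zero_iff.1 hz).le
        have h6 : ‖z‖ * ‖φ z - μ‖ ≤ ‖φ z - μ‖ := mul_le_of_le_one_left (norm_nonneg _) h5
        linarith
      rw [le_div_iff₀ hρ]
      have h4 : ‖q z‖ * ρ ≤ ‖z - a‖ * ‖q z‖ := by
        rw [mul_comm]; exact mul_le_mul_of_nonneg_right h1.le (norm_nonneg _)
      linarith
  · intro z hz
    by_cases hza : z ∈ closedBall a ρ
    · exact (hK2 z hza).trans (le_max_left _ _)
    · refine le_trans ?_ (le_max_right _ _)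
      have h1 : z ∉ ball a ρ := fun h => hza (ball_subset_closedBall h)
      have h2 : ‖Q z‖ = ‖z - a‖ * ‖q z‖ := by rw [hfac, norm_mul]
      have h3 := hlow z hz h1
      have h4 : ‖z - a‖ ≤ 2 := by
        refine (norm_sub_le _ _).trans ?_
        have := mem_ball_zero_iff.1 hz
        have := mem_ball_zero_iff.1 ha1
        linarith
      have h5 : 0 < ‖q z‖ := norm_pos_iff.2 (hqne z hz)
      rw [norm_inv, inv_eq_one_div, div_le_div_iff₀ h5 hm0, one_mul]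
      have h6 : ‖z - a‖ * ‖q z‖ ≤ 2 * ‖q z‖ := mul_le_mul_of_nonneg_right h4 h5.le
      linarith

theorem is_unit (hT : IsToeplitz γ φ T) (hφ : DifferentiableOn ℂ φ (ball 0 1)) {C : ℝ}
    (hm : ∀ z ∈ ball (0 : ℂ) 1, ‖φ z‖ ≤ C) (hγ : γ ≠ 0)
    (hi : InjOn (fun z : ℂ => γ / z + φ z) (ball (0 : ℂ) 1 \ {0})) {a : ℂ}
    (ha : a ∈ ball (0 : ℂ) 1 \ {0}) :
    IsUnit (T - (γ / a + φ a) • (1 : H2 →L[ℂ] H2)) := by
  obtain ⟨M, hM⟩ := exists_mul' hφ hm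
  obtain ⟨q, hqd, hqne, hfac, ⟨K1, hK1⟩, ⟨K2, hK2⟩⟩ := bound_mul hφ hm hγ hi ha
  set μ := γ / a + φ a with hμ
  obtain ⟨X, hX⟩ := exists_mul' hqd hK1
  obtain ⟨Y, hY⟩ := exists_mul' (hqd.inv hqne) hK2
  have hXY : X * Y = 1 := by
    ext1 f
    apply ev_injective
    intro z hz
    show ev (X (Y f)) z = ev f z
    rw [hX _ z hz, hY _ z hz]
    show q z * ((q z)⁻¹ * ev f z) = ev f z
    rw [← mul_assoc, mul_inv_cancel₀ (hqne z hz), one_mul]
  have hYX : Y * X = 1 := by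
    ext1 f
    apply ev_injective
    intro z hz
    show ev (Y (X f)) z = ev f z
    rw [hY _ z hz, hX _ z hz]
    show (q z)⁻¹ * (q z * ev f z) = ev f z
    rw [← mul_assoc, inv_mul_cancel₀ (hqne z hz), one_mul]
  have hR : γ • (1 : H2 →L[ℂ] H2) + Mz * (M - μ • (1 : H2 →L[ℂ] H2)) =
      (Mz - a • (1 : H2 →L[ℂ] H2)) * X := by
    ext1 f
    apply ev_injective
    intro z hz
    have hz' := mem_ball_zero_iff.1 hz
    rw [ev_R hM μ _ hz]
    show _ = ev (Mz (X f) - a • X f) z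
    rw [ev_sub _ _ hz', ev_Mz _ hz', ev_smul, hX _ z hz, hfac z]
    ring
  rw [T_sub hT hM μ, hR, ← mul_assoc, mul_sub, adj_mul, mul_smul_comm, mul_one]
  refine IsUnit.mul ?_ ⟨⟨X, Y, hXY, hYX⟩, rfl⟩
  apply isUnit_one_sub_of_norm_lt_one
  rw [norm_smul]
  have h1 := mem_ball_zero_iff.1 ha.1
  calc ‖a‖ * ‖adjoint Mz‖ ≤ ‖a‖ * 1 := mul_le_mul_of_nonneg_left adj_norm (norm_nonneg a)
    _ < 1 := by rw [mul_one]; exact h1

theorem mem_spectrum_iff (S : H2 →L[ℂ] H2) (μ : ℂ) :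
    μ ∈ spectrum ℂ S ↔ ¬ IsUnit (S - μ • (1 : H2 →L[ℂ] H2)) := by
  rw [spectrum.mem_iff, Algebra.algebraMap_eq_smul_one, IsUnit.sub_iff]

theorem spectrum_eq (hT : IsToeplitz γ φ T) (hφ : DifferentiableOn ℂ φ (ball 0 1)) {C : ℝ}
    (hm : ∀ z ∈ ball (0 : ℂ) 1, ‖φ z‖ ≤ C) (hγ : γ ≠ 0)
    (hi : InjOn (fun z : ℂ => γ / z + φ z) (ball (0 : ℂ) 1 \ {0})) :
    spectrum ℂ T = (values γ φ)ᶜ := by
  ext μ
  rw [mem_spectrum_iff, mem_compl_iff, not_iff_not]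
  constructor
  · intro hu
    by_contra hv
    refine not_unit hT hφ hm μ ?_ hu
    intro z hz h0
    rcases eq_or_ne z 0 with rfl | hz0
    · rw [zero_mul, add_zero] at h0
      exact hγ h0
    · apply hv
      refine ⟨z, ⟨hz, hz0⟩, ?_⟩
      show γ / z + φ z = μ
      field_simp
      linear_combination h0
  · rintro ⟨a, ha, rfl⟩
    exact is_unit hT hφ hm hγ hi ha

end Pool.Agent.R989.HT
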