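import Mathlib
import Pool.Agent.R989.HT.C

set_option autoImplicit false

open Complex Metric Set Filter MeasureTheory
open scoped Real Topology ComplexConjugate NNReal ENNReal InnerProductSpace

namespace Pool.Agent.R989.HT

open Pool.Agent.Helper203.Hardy
open ContinuousLinearMap (adjoint)

variable {γ : ℂ} {φ : ℂ → ℂ} {T : H2 →L[ℂ] H2}

/-- If the values of `Φ` cover the disc, there is an analytic right inverse of `Φ` on the disc. -/
theorem exists_omega (hφ : DifferentiableOn ℂ φ (ball 0 1))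
    (hi : InjOn (fun z : ℂ => γ / z + φ z) (ball (0 : ℂ) 1 \ {0}))
    (hcov : ball (0 : ℂ) 1 ⊆ values γ φ) :
    ∃ ω : ℂ → ℂ, DifferentiableOn ℂ ω (ball 0 1) ∧
      ∀ μ ∈ ball (0 : ℂ) 1, ω μ ∈ ball (0 : ℂ) 1 \ {0} ∧ γ / ω μ + φ (ω μ) = μ := by
  have hch : ∀ μ : ℂ, ∃ a : ℂ, μ ∈ ball (0 : ℂ) 1 →
      (a ∈ ball (0 : ℂ) 1 \ {0} ∧ γ / a + φ a = μ) := by
    intro μ
    by_cases h : μ ∈ ball (0 : ℂ) 1
    · obtain ⟨a, ha, ha1⟩ := hcov h
      exact ⟨a, fun _ => ⟨ha, ha1⟩⟩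
    · exact ⟨0, fun h' => absurd h' h⟩
  choose ω hω using hch
  refine ⟨ω, ?_, hω⟩
  intro μ hμ
  apply DifferentiableAt.differentiableWithinAt
  have hcont : ContinuousAt ω μ := by
    intro W hW
    have h1 : W ∩ (ball (0 : ℂ) 1 \ {0}) ∈ 𝓝 (ω μ) :=
      Filter.inter_mem hW (open_punct.mem_nhds (hω μ hμ).1)
    have h2 := image_nhds hφ hi (hω μ hμ).1 h1
    rw [(hω μ hμ).2] at h2
    rw [Filter.mem_map]
    filter_upwards [h2, isOpen_ball.mem_nhds hμ] with ν hν hν1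
    obtain ⟨w, hw, hw1⟩ := hν
    have h3 : ω ν = w := hi (hω ν hν1).1 hw.2 ((hω ν hν1).2.trans hw1.symm)
    show ω ν ∈ W
    rw [h3]; exact hw.1
  have h0 := Pool.Agent.Helper202.Geom.deriv_ne_zero_of_injOn open_punct (diff_Phi γ hφ) hi
    (hω μ hμ).1
  exact (HasDerivAt.of_local_left_inverse hcont (strict γ hφ (hω μ hμ).1).hasDerivAt h0 (by
    filter_upwards [isOpen_ball.mem_nhds hμ] with ν hν
    exact (hω ν hν).2)).differentiableAt

theorem e0_zero : (e0 : H2) 0 = 1 := by rw [e0, lp.single_apply_self]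

theorem e0_succ (n : ℕ) : (e0 : H2) (n + 1) = 0 := by
  rw [e0, lp.single_apply_ne _ _ _ (Nat.succ_ne_zero n)]

/-- the coefficients `(T^m f)(0)` are controlled by every later element of the orbit -/
theorem orbit_bound (hT : IsToeplitz γ φ T) (hφ : DifferentiableOn ℂ φ (ball 0 1))
    (hi : InjOn (fun z : ℂ => γ / z + φ z) (ball (0 : ℂ) 1 \ {0}))
    (hcov : ball (0 : ℂ) 1 ⊆ values γ φ) :
    ∃ K : ℝ, 0 ≤ K ∧ ∀ (f : H2) (k : ℕ), ‖γ‖ * ‖f 0‖ ≤ K * ‖(T ^ (k + 1)) f‖ := by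
  obtain ⟨ω, hωd, hω⟩ := exists_omega hφ hi hcov
  have hmaps : MapsTo ω (ball (0 : ℂ) 1) (ball 0 1) := fun μ hμ => (hω μ hμ).1.1
  obtain ⟨Cω, hCω⟩ := exists_comp hωd hmaps
  obtain ⟨Mω, hMω⟩ := exists_mul' hωd (C := 1)
    (fun μ hμ => (mem_ball_zero_iff.1 (hmaps hμ)).le)
  set A : H2 →L[ℂ] H2 := Mω * Cω with hA
  have hAev : ∀ f : H2, ∀ μ ∈ ball (0 : ℂ) 1, ev (A f) μ = ω μ * ev f (ω μ) := by
    intro f μ hμ
    show ev (Mω (Cω f)) μ = _
    rw [hMω _ μ hμ, hCω _ μ hμ]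
  have hrel : ∀ f : H2, A (T f) = Mz (A f) - (γ * f 0) • e0 := by
    intro f
    apply ev_injective
    intro μ hμ
    have hμ' := mem_ball_zero_iff.1 hμ
    obtain ⟨⟨ha, ha0⟩, hΦ⟩ := hω μ hμ
    have ha0' : ω μ ≠ 0 := ha0
    rw [hAev _ μ hμ, zT hT f ha, ev_sub _ _ hμ', ev_Mz _ hμ', ev_smul, ev_e0, hAev _ μ hμ]
    have e : γ + ω μ * φ (ω μ) = ω μ * μ := by
      have h1 : ω μ * (γ / ω μ + φ (ω μ)) = ω μ * μ := by rw [hΦ]
      have h2 : ω μ * (γ / ω μ) = γ := by field_simp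
      rw [mul_add, h2] at h1
      exact h1
    rw [e]; ring
  have h0 : ∀ f : H2, (A (T f)) 0 = -(γ * f 0) := by
    intro f
    rw [hrel]
    show (Mz (A f)) 0 - (γ * f 0) * e0 0 = _
    rw [e0_zero, Mz_apply]
    show (0 : ℂ) - _ = _
    ring
  have hs : ∀ (f : H2) (n : ℕ), (A (T f)) (n + 1) = (A f) n := by
    intro f n
    rw [hrel]
    show (Mz (A f)) (n + 1) - (γ * f 0) * e0 (n + 1) = _
    rw [e0_succ, Mz_apply, mul_zero, sub_zero]
    rfl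
  have hk : ∀ (k : ℕ) (f : H2), (A ((T ^ (k + 1)) f)) k = -(γ * f 0) := by
    intro k f
    induction k with
    | zero => rw [zero_add, pow_one]; exact h0 f
    | succ k ih =>
      have e : (T ^ (k + 1 + 1)) f = T ((T ^ (k + 1)) f) := by rw [pow_succ' T (k + 1)]; rfl
      rw [e, hs, ih]
  refine ⟨‖A‖, norm_nonneg A, fun f k => ?_⟩
  rw [← norm_mul, ← norm_neg, ← hk k f]
  exact (coef_le _ _).trans (A.le_opNorm _)

theorem nonempty_inter (hT : IsToeplitz γ φ T) (hφ : DifferentiableOn ℂ φ (ball 0 1)) {C : ℝ}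
    (hm : ∀ z ∈ ball (0 : ℂ) 1, ‖φ z‖ ≤ C) (hh : Hypercyclic T) :
    (ball (0 : ℂ) 1 ∩ spectrum ℂ T).Nonempty := by
  have hγ := gamma_ne hT hh
  have hi := inj hT hh
  by_contra hne
  rw [Set.not_nonempty_iff_eq_empty] at hne
  have hcov : ball (0 : ℂ) 1 ⊆ values γ φ := by
    intro μ hμ
    by_contra hv
    have : μ ∈ ball (0 : ℂ) 1 ∩ spectrum ℂ T := by
      rw [spectrum_eq hT hφ hm hγ hi]
      exact ⟨hμ, hv⟩
    rw [hne] at this
    exact this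
  obtain ⟨K, hK0, hK⟩ := orbit_bound hT hφ hi hcov
  obtain ⟨x, hx⟩ := hh
  have hnt : Nontrivial H2 := ⟨⟨e0, 0, fun h => by
    have := congrArg (fun f : H2 => f 0) h
    simp only [e0_zero] at this
    exact one_ne_zero this⟩⟩
  have hnb : ∀ y : H2, NeBot (𝓝[≠] y) := fun y => Module.punctured_nhds_neBot ℂ H2 y
  have hzero : ∀ m : ℕ, ((T ^ m) x) 0 = 0 := by
    intro m
    by_contra hne0
    have hpos : 0 < ‖γ‖ * ‖((T ^ m) x) 0‖ :=
      mul_pos (norm_pos_iff.2 hγ) (norm_pos_iff.2 hne0)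
    set ε : ℝ := ‖γ‖ * ‖((T ^ m) x) 0‖ / (K + 1) with hε
    have hε0 : 0 < ε := div_pos hpos (by linarith)
    have hd : Dense ((Set.range fun n : ℕ => (T ^ n) x) \
        ((fun n : ℕ => (T ^ n) x) '' Set.Iic m)) :=
      hx.sdiff_finite ((Set.finite_Iic m).image _)
    obtain ⟨y, ⟨⟨n, hn⟩, hy2⟩, hy3⟩ := hd.exists_mem_open isOpen_ball ⟨(0 : H2), mem_ball_self hε0⟩
    have hnm : m < n := by
      by_contra hle
      push Not at hle
      exact hy2 ⟨n, hle, hn⟩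
    obtain ⟨k, rfl⟩ : ∃ k, n = k + 1 + m := ⟨n - m - 1, by omega⟩
    have h1 := hK ((T ^ m) x) k
    have h2 : (T ^ (k + 1)) ((T ^ m) x) = y := by
      rw [← hn]
      show _ = (T ^ (k + 1 + m)) x
      rw [pow_add T (k + 1) m]
      rfl
    rw [h2] at h1
    have h3 : ‖y‖ < ε := mem_ball_zero_iff.1 hy3
    have h4 : K * ‖y‖ ≤ K * ε := mul_le_mul_of_nonneg_left h3.le hK0
    have h5 : (K + 1) * ε = ‖γ‖ * ‖((T ^ m) x) 0‖ := by
      rw [hε]; field_simp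
    nlinarith
  -- the orbit lies in a closed hyperplane
  obtain ⟨L, hL⟩ := exists_evL (a := 0) (by simp)
  obtain ⟨y, ⟨n, rfl⟩, hy⟩ := hx.exists_mem_open (U := {f | L f ≠ 0})
    (isOpen_ne_fun L.continuous continuous_const) ⟨e0, by
      show L e0 ≠ 0
      rw [hL, ev_e0]; exact one_ne_zero⟩
  apply hy
  rw [hL, ev_zero]
  exact hzero n

end Pool.Agent.R989.HT
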