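import Mathlib
import Pool.Agent.R989.HT.D
import Pool.Agent.Helper203.HStmt

set_option autoImplicit false

open Complex Metric Set Filter
open scoped Topology

namespace Pool.Agent.R989.HT

open Pool.Agent.Helper203.Hardy

/-- `T` is the Toeplitz operator `γ S^* + T_φ` on `H²`: `S^*` is the backward shift and `T_φ` is
multiplication by `φ`. -/
def IsToep (γ : ℂ) (φ : ℂ → ℂ) (T : Op) : Prop :=
  ∀ f : HS, ∀ z ∈ ball (0 : ℂ) 1,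
    eval (T f) z = φ z * eval f z + γ * ∑' n, coef f (n + 1) * z ^ n

/-- some orbit of `T` is dense -/
def Hyp (T : Op) : Prop := ∃ x : HS, Dense (Set.range fun n : ℕ => (T ^ n) x)

/-- the spectrum of `T` -/
def spec (T : Op) : Set ℂ := {μ : ℂ | ¬ IsUnit (T - μ • (1 : Op))}

theorem spec_eq_spectrum (T : Op) : spec T = spectrum ℂ T := by
  ext μ
  rw [spectrum.mem_iff, Algebra.algebraMap_eq_smul_one, IsUnit.sub_iff]
  rfl

theorem transfer (γ : ℂ) (φ : ℂ → ℂ) (hφ : DifferentiableOn ℂ φ (ball 0 1))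
    (hb : ∃ C : ℝ, ∀ z ∈ ball (0 : ℂ) 1, ‖φ z‖ ≤ C) :
    ∃ T : H2 →L[ℂ] H2, IsToeplitz γ φ T ∧ (∀ T' : H2 →L[ℂ] H2, IsToeplitz γ φ T' → T' = T) ∧
      (Hypercyclic T →
        ball (0 : ℂ) 1 ∩ {μ : ℂ | ¬ IsUnit (T - μ • (1 : H2 →L[ℂ] H2))} =
          ball (0 : ℂ) 1 ∩ (values γ φ)ᶜ ∧
        (ball (0 : ℂ) 1 ∩ (values γ φ)ᶜ).Nonempty) := by
  obtain ⟨C, hm⟩ := hb
  obtain ⟨T, hT⟩ := exists_T γ hφ hm
  refine ⟨T, hT, ?_, ?_⟩
  · intro T' hT'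
    ext1 f
    apply ev_injective
    intro z hz
    rw [hT' f z hz, hT f z hz]
  · intro hh
    have h1 := spectrum_eq hT hφ hm (gamma_ne hT hh) (inj hT hh)
    have h2 := nonempty_inter hT hφ hm hh
    rw [h1] at h2
    refine ⟨?_, h2⟩
    rw [← h1]
    ext μ
    constructor
    · rintro ⟨h3, h4⟩
      exact ⟨h3, (mem_spectrum_iff T μ).2 h4⟩
    · rintro ⟨h3, h4⟩
      exact ⟨h3, (mem_spectrum_iff T μ).1 h4⟩

theorem main (γ : ℂ) (φ : ℂ → ℂ) (hφ : DifferentiableOn ℂ φ (ball 0 1))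
    (hb : ∃ C : ℝ, ∀ z ∈ ball (0 : ℂ) 1, ‖φ z‖ ≤ C) :
    ∃ T : Op, IsToep γ φ T ∧ (∀ T' : Op, IsToep γ φ T' → T' = T) ∧
      (Hyp T →
        ball (0 : ℂ) 1 ∩ spec T = ball (0 : ℂ) 1 ∩ (values γ φ)ᶜ ∧
        (ball (0 : ℂ) 1 ∩ (values γ φ)ᶜ).Nonempty) :=
  transfer γ φ hφ hb

end Pool.Agent.R989.HT
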